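import Pool.Agent.Helper94.RS.Main4

/-!
# RT: rotations of order three; definitions and statements of the leaves

* `xx G w`: the point with coordinates `re (G k w)`. `IsoChart F z r G`: an isothermal chart of the surface at the interior point `z`, given
  by holomorphic functions.
* `lap2 f`: the flat Laplacian of `f : ℂ → ℝ`.
* `Crit F φ y`: `y` is an interior zero of `φ` at which the tangential gradient vanishes. `Isol F φ`: such points are isolated.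
-/

set_option autoImplicit false

open scoped ContDiff Topology

namespace Pool.Agent.Helper99.RS

open Pool.Agent.Helper78.FB

noncomputable def xx (G : Fin 3 → ℂ → ℂ) (w : ℂ) : E := !₂[(G 0 w).re, (G 1 w).re, (G 2 w).re]

structure IsoChart (F : E → ℝ) (z : E) (r : ℝ) (G : Fin 3 → ℂ → ℂ) : Prop where
  pos : 0 < r
  hol : ∀ k, DifferentiableOn ℂ (G k) (Metric.ball 0 r)
  null : ∀ w ∈ Metric.ball (0 : ℂ) r, ∑ k, deriv (G k) w ^ 2 = 0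
  imm : ∀ w ∈ Metric.ball (0 : ℂ) r, ∃ k, deriv (G k) w ≠ 0
  mem : ∀ w ∈ Metric.ball (0 : ℂ) r, xx G w ∈ inn F
  zero : xx G 0 = z
  nhd : ∀ ρ : ℝ, 0 < ρ → ρ ≤ r → ∃ ε : ℝ, 0 < ε ∧ ∀ y ∈ surf F, y ∈ Metric.ball z ε →
    ∃ w ∈ Metric.ball (0 : ℂ) ρ, xx G w = y

noncomputable def lap2 (f : ℂ → ℝ) (w : ℂ) : ℝ :=
  fderiv ℝ (fun z => fderiv ℝ f z 1) w 1 + fderiv ℝ (fun z => fderiv ℝ f z Complex.I) w Complex.I

def Crit (F φ : E → ℝ) (y : E) : Prop := y ∈ inn F ∧ φ y = 0 ∧ tang F φ φ y = 0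

def Isol (F φ : E → ℝ) : Prop := ∀ z ∈ inn F, ∃ r : ℝ, 0 < r ∧ ∀ y ∈ Metric.ball z r, y ≠ z → ¬ Crit F φ y

/-- leaf ISO-A -/
def StatA : Prop := ∀ F : E → ℝ, FBMS F → ∀ z ∈ inn F, ∃ (r : ℝ) (G : Fin 3 → ℂ → ℂ), IsoChart F z r G

/-- leaf ISO-B -/
def StatB : Prop := ∀ (f V : ℂ → ℝ) (r : ℝ), 0 < r → AnalyticOnNhd ℝ f (Metric.ball 0 r) →
  ContinuousOn V (Metric.ball 0 r) → (∀ w ∈ Metric.ball (0 : ℂ) r, lap2 f w = V w * f w) →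
  (∃ w ∈ Metric.ball (0 : ℂ) r, f w ≠ 0) →
  ∃ ρ : ℝ, 0 < ρ ∧ ∀ w : ℂ, w ≠ 0 → ‖w‖ < ρ → ¬ (f w = 0 ∧ fderiv ℝ f w = 0)

/-- leaf ISO-C -/
def StatC : Prop := ∀ (F : E → ℝ), FBMS F → ∀ (z : E) (r : ℝ) (G : Fin 3 → ℂ → ℂ), IsoChart F z r G →
  AnalyticOnNhd ℝ (fun w => ww F 0 1 (xx G w)) (Metric.ball 0 r) ∧
    (∃ V : ℂ → ℝ, ContinuousOn V (Metric.ball 0 r) ∧ ∀ w ∈ Metric.ball (0 : ℂ) r,
      lap2 (fun w => ww F 0 1 (xx G w)) w = V w * ww F 0 1 (xx G w)) ∧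
    ∀ w ∈ Metric.ball (0 : ℂ) r, Crit F (ww F 0 1) (xx G w) → fderiv ℝ (fun w => ww F 0 1 (xx G w)) w = 0

/-- leaf ISO-D (from A, B, C) -/
def StatD : Prop := ∀ (F : E → ℝ), FBMS F → IsPreconnected (inn F) → (∃ y ∈ surf F, ww F 0 1 y ≠ 0) →
  Isol F (ww F 0 1) ∧ ∀ z ∈ inn F, ∀ r : ℝ, 0 < r → ∃ y ∈ inn F, y ∈ Metric.ball z r ∧ ww F 0 1 y ≠ 0

end Pool.Agent.Helper99.RS
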